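import Pool.Agent.H20.Pow5

namespace Pool.Agent.Results.MP_0bd9b3_al.Full

open Pool.Agent.H20.Pow

universe u

theorem result (R : Type u) [NonUnitalRing R] [Finite R] (d k : ℕ) (hd : 1 < d) (hk : 1 ≤ k) :
    (¬ (d = 2 ∧ (Nat.card R % 4 = 2 ∧ 1 < k ∧ (k % 6 = 5 ∨ k % 6 = 0 ∨ k % 6 = 1)) ∧
        ∀ e : R, e ≠ 0 → 2 • e = 0 → e * e = e) → powSum R d k = 0) ∧
    (d = 2 → Nat.card R % 4 = 2 → 1 < k → (k % 6 = 5 ∨ k % 6 = 0 ∨ k % 6 = 1) →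
      ∀ e : R, e ≠ 0 → 2 • e = 0 → e * e = e →
        powSum R d k = Matrix.diagonal (fun _ => e)) :=
  main R d k hd hk

end Pool.Agent.Results.MP_0bd9b3_al.Full
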